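import Pool.Agent.H16.FK.TargetsB

/-!
Module AXD of the board hci_modules (MP_5607ba_lc): the axioms for the types of the random array.
-/

set_option autoImplicit false

namespace Pool.Agent.H39.FK

open Set Pool.Agent.H75.HCI Pool.Agent.H16.FK

theorem pf_AXD (h1 : T_TDP) (h2 : T_T3D) (h3 : T_T4D) : T_AXD := by
  intro C kc ku k M D hM hD hP hS
  obtain ⟨p1, p2⟩ := h1 C kc ku k M D hM
  obtain ⟨p3, p4⟩ := h3 C kc ku k M D hM hD hP hS
  exact ⟨⟨p1, p2, h2 C kc ku k M D hM hD hP, p3⟩, p4⟩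

end Pool.Agent.H39.FK
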