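import Pool.Agent.H16.FK.TargetsA

/-!
Module TPW of the board hci_modules (MP_5607ba_lc): the enriched type does not depend on the choice
of the fresh rows.
-/

set_option autoImplicit false

namespace Pool.Agent.H39.FK

open Set Pool.Agent.H75.HCI Pool.Agent.H16.FK

theorem sel_append {α : Type} (l : List α) (w w' : List ℕ) :
    sel l (w ++ w') = sel l w ++ sel l w' := by
  unfold sel
  rw [List.filterMap_append]

theorem sel_mid {α : Type} (u v x : List α) :
    sel (u ++ (v ++ x)) ((List.range v.length).map (fun i => u.length + i)) = v := by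
  have h1 : sel (u ++ (v ++ x)) ((List.range v.length).map (fun i => u.length + i)) =
      sel v (List.range v.length) := by
    unfold sel
    rw [List.filterMap_map]
    refine List.filterMap_congr fun i hi => ?_
    rw [List.mem_range] at hi
    show (u ++ (v ++ x))[u.length + i]? = v[i]?
    rw [List.getElem?_append_right (by omega), Nat.add_sub_cancel_left,
      List.getElem?_append_left hi]
  rw [h1, sel_range]

section

variable {kx k : ℕ} {L : Type} {T : List (Idx kx k) → L}

theorem length_prt (i m : ℕ) (a : List (Fin k)) :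
    (prt i m a : List (Idx kx k)).length = a.length := by
  unfold prt
  rw [List.length_map]

/-- moving one part -/
theorem move1 (hT : AX T) (l1 l2 : List (Idx kx k)) (i m i' m' : ℕ) (a : List (Fin k))
    (ha : a.Nodup) (hk : a.length < k) (h1 : Miss i m (l1 ++ l2)) (h2 : Miss i' m' (l1 ++ l2)) :
    T (l1 ++ (prt i m a ++ l2)) = T (l1 ++ (prt i' m' a ++ l2)) := by
  have h3 := hT.t3 (l1 ++ l2) i m i' m' a ha hk h1 h2
  have h4 := hT.ft ((l1 ++ l2) ++ prt i m a) ((l1 ++ l2) ++ prt i' m' a)
    ((List.range l1.length).map (fun j => 0 + j) ++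
      ((List.range a.length).map (fun j => (l1 ++ l2).length + j) ++
      (List.range l2.length).map (fun j => l1.length + j)))
    (by simp only [List.length_append, length_prt]) h3
  have key : ∀ p : List (Idx kx k), p.length = a.length →
      sel ((l1 ++ l2) ++ p) ((List.range l1.length).map (fun j => 0 + j) ++
        ((List.range a.length).map (fun j => (l1 ++ l2).length + j) ++
        (List.range l2.length).map (fun j => l1.length + j))) = l1 ++ (p ++ l2) := by
    intro p hp
    rw [sel_append, sel_append]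
    congr 1
    · have h5 := sel_mid [] l1 (l2 ++ p)
      rw [List.nil_append, ← List.append_assoc] at h5
      exact h5
    · congr 1
      · have h5 := sel_mid (l1 ++ l2) p []
        rw [List.append_nil, hp] at h5
        exact h5
      · have h5 := sel_mid l1 l2 p
        rw [← List.append_assoc] at h5
        exact h5
  rw [key _ (length_prt i m a), key _ (length_prt i' m' a)] at h4
  exact h4

/-- the row of a part -/
def rr (q : ℕ × ℕ × List (Fin k)) : ℕ × ℕ := (q.1, q.2.1)

/-- the points of a list of parts -/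
def fl (R : List (ℕ × ℕ × List (Fin k))) : List (Idx kx k) :=
  (R.map fun q => prt q.1 q.2.1 q.2.2).flatten

theorem fl_cons (q : ℕ × ℕ × List (Fin k)) (R : List (ℕ × ℕ × List (Fin k))) :
    (fl (q :: R) : List (Idx kx k)) = prt q.1 q.2.1 q.2.2 ++ fl R := by
  unfold fl
  rw [List.map_cons, List.flatten_cons]

theorem miss_append {i m : ℕ} {l l' : List (Idx kx k)} (h : Miss i m l) (h' : Miss i m l') :
    Miss i m (l ++ l') := by
  intro y hy
  rcases List.mem_append.1 hy with h1 | h1
  · exact h y h1
  · exact h' y h1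

theorem miss_prt {i m i' m' : ℕ} (h : (i, m) ≠ (i', m')) (a : List (Fin k)) :
    Miss i m (prt i' m' a : List (Idx kx k)) := by
  intro y hy
  unfold prt at hy
  obtain ⟨z, -, hz⟩ := List.mem_map.1 hy
  apply h
  have h1 : i' = i := congrArg Prod.fst hz
  have h2 := Sum.inr.inj (congrArg Prod.snd hz)
  have h3 : m' = m := congrArg Prod.fst h2
  rw [h1, h3]

theorem miss_fl {i m : ℕ} (R : List (ℕ × ℕ × List (Fin k))) (h : ∀ q ∈ R, (i, m) ≠ rr q) :
    Miss i m (fl R : List (Idx kx k)) := by
  induction R with
  | nil =>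
    intro y hy
    exact absurd hy (List.not_mem_nil)
  | cons q R ih =>
    rw [fl_cons]
    exact miss_append (miss_prt (h q List.mem_cons_self) _)
      (ih fun q' hq' => h q' (List.mem_cons_of_mem _ hq'))

theorem moveAll (hT : AX T) : ∀ (R R' : List (ℕ × ℕ × List (Fin k))) (l : List (Idx kx k)),
    R.map (fun q => q.2.2) = R'.map (fun q => q.2.2) → (R.map rr).Nodup → (R'.map rr).Nodup →
    (∀ q ∈ R, ∀ q' ∈ R', rr q ≠ rr q') → (∀ q ∈ R, Miss q.1 q.2.1 l) →
    (∀ q ∈ R', Miss q.1 q.2.1 l) → (∀ q ∈ R, q.2.2.Nodup ∧ q.2.2.length < k) →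
    T (l ++ fl R) = T (l ++ fl R') := by
  intro R
  induction R with
  | nil =>
    intro R' l h _ _ _ _ _ _
    have h1 : R' = [] := by
      cases R' with
      | nil => rfl
      | cons a b => simp at h
    rw [h1]
  | cons q R ih =>
    intro R' l h hn hn' hd hm hm' hg
    cases R' with
    | nil => simp at h
    | cons q' R' =>
      rw [List.map_cons, List.map_cons] at h
      have ha : q.2.2 = q'.2.2 := (List.cons.inj h).1
      have hR := (List.cons.inj h).2
      rw [List.map_cons, List.nodup_cons] at hn hn'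
      have hqR : ∀ r ∈ R, rr q ≠ rr r := fun r hr e => hn.1 (e ▸ List.mem_map_of_mem hr)
      have hqR' : ∀ r ∈ R', rr q' ≠ rr r := fun r hr e => hn'.1 (e ▸ List.mem_map_of_mem hr)
      have hg0 := hg q List.mem_cons_self
      have h1 := move1 hT l (fl R) q.1 q.2.1 q'.1 q'.2.1 q.2.2 hg0.1 hg0.2
        (miss_append (hm q List.mem_cons_self) (miss_fl R hqR))
        (miss_append (hm' q' List.mem_cons_self)
          (miss_fl R fun r hr e => hd r (List.mem_cons_of_mem _ hr) q' List.mem_cons_self e.symm))
      rw [fl_cons, fl_cons, h1, ha, ← List.append_assoc, ← List.append_assoc]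
      refine ih R' _ hR hn.2 hn'.2 ?_ ?_ ?_ ?_
      · exact fun r hr r' hr' => hd r (List.mem_cons_of_mem _ hr) r' (List.mem_cons_of_mem _ hr')
      · intro r hr
        refine miss_append (hm r (List.mem_cons_of_mem _ hr)) (miss_prt ?_ _)
        exact hd r (List.mem_cons_of_mem _ hr) q' List.mem_cons_self
      · intro r hr
        refine miss_append (hm' r (List.mem_cons_of_mem _ hr)) (miss_prt ?_ _)
        exact fun e => hqR' r hr e.symm
      · exact fun r hr => hg r (List.mem_cons_of_mem _ hr)

/-- the parts in the rows of the chunk `n` -/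
def zz (n : ℕ) (A : List (List (Fin k))) : List (ℕ × ℕ × List (Fin k)) :=
  A.zipIdx.map fun q => (n, q.2, q.1)

theorem fl_zz (n : ℕ) (A : List (List (Fin k))) : (fl (zz n A) : List (Idx kx k)) = frs n A := by
  unfold fl zz frs
  rw [List.map_map]
  rfl

theorem zz_parts (n : ℕ) (A : List (List (Fin k))) : (zz n A).map (fun q => q.2.2) = A := by
  unfold zz
  rw [List.map_map]
  exact List.zipIdx_map_fst 0 A

theorem zz_fst {n : ℕ} {A : List (List (Fin k))} : ∀ q ∈ zz n A, q.1 = n := by
  intro q hq
  unfold zz at hq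
  obtain ⟨z, -, rfl⟩ := List.mem_map.1 hq
  rfl

theorem zz_nodup (n : ℕ) (A : List (List (Fin k))) : ((zz n A).map rr).Nodup := by
  have h1 : (zz n A).map rr = (A.zipIdx.map Prod.snd).map (fun j => (n, j)) := by
    unfold zz
    rw [List.map_map, List.map_map]
    rfl
  rw [h1, List.zipIdx_map_snd]
  refine List.Nodup.map ?_ List.nodup_range'
  intro a b h
  exact congrArg Prod.snd h

theorem lt_bd {l : List (Idx kx k)} {p : Idx kx k} (h : p ∈ l) : p.1 < bd l := by
  unfold bd
  have h1 : p.1 + 1 ≤ (l.map fun p => p.1 + 1).sum :=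
    List.single_le_sum (by simp) _ (List.mem_map_of_mem (f := fun p : Idx kx k => p.1 + 1) h)
  omega

theorem miss_bd {l : List (Idx kx k)} {n m : ℕ} (h : bd l ≤ n) : Miss n m l := by
  intro y hy
  have h1 := lt_bd hy
  have h2 : n < bd l := h1
  omega

end

theorem pf_TPW : T_TPW := by
  classical
  intro kx k L T hT l R hn hm hg
  unfold TP
  rw [if_pos hg]
  set A := R.map (fun q => q.2.2) with hA
  obtain ⟨M, hM1, hM2⟩ : ∃ M, bd l < M ∧ ∀ q ∈ R, q.1 < M := by
    refine ⟨bd l + 1 + (R.map fun q => q.1).sum + 1, by omega, fun q hq => ?_⟩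
    have h1 : q.1 ≤ (R.map fun q => q.1).sum :=
      List.single_le_sum (by simp) _ (List.mem_map_of_mem (f := fun q : ℕ × ℕ × List (Fin k) => q.1) hq)
    omega
  have hgood : ∀ q ∈ R, q.2.2.Nodup ∧ q.2.2.length < k := fun q hq =>
    hg _ (List.mem_map_of_mem (f := fun q : ℕ × ℕ × List (Fin k) => q.2.2) hq)
  have h1 : T (l ++ fl R) = T (l ++ fl (zz M A)) := by
    refine moveAll hT R (zz M A) l (zz_parts M A).symm hn (zz_nodup M A) ?_ hm ?_ hgood
    · intro q hq q' hq' e
      have e1 : (rr q).1 = (rr q').1 := by rw [e]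
      change q.1 = q'.1 at e1
      have e2 := zz_fst q' hq'
      have e3 := hM2 q hq
      omega
    · intro q hq
      have e1 := zz_fst q hq
      exact miss_bd (by omega)
  have h2 : T (l ++ fl (zz M A)) = T (l ++ fl (zz (bd l) A)) := by
    refine moveAll hT (zz M A) (zz (bd l) A) l ?_ (zz_nodup M A) (zz_nodup _ A) ?_ ?_ ?_ ?_
    · rw [zz_parts, zz_parts]
    · intro q hq q' hq' e
      have e1 : (rr q).1 = (rr q').1 := by rw [e]
      change q.1 = q'.1 at e1
      have e2 := zz_fst q' hq'
      have e3 := zz_fst q hq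
      omega
    · intro q hq
      have e1 := zz_fst q hq
      exact miss_bd (by omega)
    · intro q hq
      have e1 := zz_fst q hq
      exact miss_bd (by omega)
    · intro q hq
      have h3 : q.2.2 ∈ (zz M A).map (fun q => q.2.2) :=
        List.mem_map_of_mem (f := fun q : ℕ × ℕ × List (Fin k) => q.2.2) hq
      rw [zz_parts] at h3
      exact hg _ h3
  rw [fl_zz (bd l) A] at h2
  exact h1.trans h2

end Pool.Agent.H39.FK
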